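import Pool.Agent.H85.TU.Targets

/-!
# Row L2S of tum_modules
-/

set_option autoImplicit false

open Set

namespace Pool.Agent.H98.TU

open Pool.Agent.H85.TU

section

variable {ι : Type} {ar : ι → ℕ} {D : ι → Type} (d : ∀ i, D i)

/-- labels of lists from a structure -/
def enc (x : Str ar D ℕ) (l : List ℕ) : ∀ i, D i := fun i =>
  if h : l.length = ar i then x i (fun k => l.get (Fin.cast h.symm k)) else d i

/-- a structure from labels of lists -/
def dec (ar : ι → ℕ) (y : List ℕ → ∀ i, D i) : Str ar D ℕ := fun i v => y (List.ofFn v) i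

theorem dec_enc (x : Str ar D ℕ) : dec ar (enc d x) = x := by
  funext i v
  have h : (List.ofFn v).length = ar i := List.length_ofFn
  unfold dec enc
  rw [dif_pos h]
  congr 1
  funext k
  simp

theorem enc_ne (x : Str ar D ℕ) (l : List ℕ) (i : ι) (h : l.length ≠ ar i) :
    enc d x l i = d i := by
  unfold enc
  rw [dif_neg h]

theorem enc_dec (y : List ℕ → ∀ i, D i) (hy : ∀ l i, l.length ≠ ar i → y l i = d i) :
    enc d (dec ar y) = y := by
  funext l i
  by_cases h : l.length = ar i
  · unfold enc dec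
    rw [dif_pos h]
    have h1 : List.ofFn (fun k : Fin (ar i) => l.get (Fin.cast h.symm k)) = l := by
      apply List.ext_get
      · simp [h]
      · intro n h1 h2
        simp
    rw [h1]
  · rw [enc_ne d _ l i h, hy l i h]

theorem iso_dec {y y' : List ℕ → ∀ i, D i} (h : IsoL y y') : Iso (dec ar y) (dec ar y') := by
  obtain ⟨g, hg⟩ := h
  refine ⟨g, fun i v => ?_⟩
  unfold dec
  have h1 : List.ofFn (⇑g ∘ v) = (List.ofFn v).map g := (List.map_ofFn ..).symm
  rw [h1, hg]

theorem iso_enc {x x' : Str ar D ℕ} (h : Iso x x') : IsoL (enc d x) (enc d x') := by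
  obtain ⟨g, hg⟩ := h
  refine ⟨g, fun l => ?_⟩
  funext i
  by_cases h : l.length = ar i
  · have h2 : (l.map g).length = ar i := by rw [List.length_map, h]
    unfold enc
    rw [dif_pos h, dif_pos h2, ← hg]
    congr 1
    funext k
    simp
  · have h2 : (l.map g).length ≠ ar i := by rw [List.length_map]; exact h
    rw [enc_ne d _ _ i h2, enc_ne d _ _ i h]

end

theorem pf_L2S : T_L2S := by
  intro ι _ ar D _ _ _ X hX hinv
  have hd : Nonempty (∀ i, D i) := inferInstance
  obtain ⟨d⟩ := hd
  have hdm : Measurable (dec ar : (List ℕ → ∀ i, D i) → Str ar D ℕ) := by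
    refine measurable_pi_iff.2 fun i => measurable_pi_iff.2 fun v => ?_
    exact (measurable_pi_apply i).comp (measurable_pi_apply (List.ofFn v))
  have hem : Measurable (enc d : Str ar D ℕ → (List ℕ → ∀ i, D i)) := by
    refine measurable_pi_iff.2 fun l => measurable_pi_iff.2 fun i => ?_
    by_cases h : l.length = ar i
    · have h1 : (fun x : Str ar D ℕ => enc d x l i) =
          fun x => x i (fun k => l.get (Fin.cast h.symm k)) := by
        funext x
        unfold enc
        rw [dif_pos h]
      rw [h1]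
      exact (measurable_pi_apply (fun k => l.get (Fin.cast h.symm k))).comp (measurable_pi_apply i)
    · have h1 : (fun x : Str ar D ℕ => enc d x l i) = fun _ => d i := by
        funext x
        exact enc_ne d x l i h
      rw [h1]
      exact measurable_const
  let X' : Set (List ℕ → ∀ i, D i) := {y | dec ar y ∈ X ∧ ∀ l i, l.length ≠ ar i → y l i = d i}
  have hX' : MeasurableSet X' := by
    refine MeasurableSet.inter (hdm hX) ?_
    have h1 : {y : List ℕ → ∀ i, D i | ∀ l i, l.length ≠ ar i → y l i = d i} =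
        ⋂ l : List ℕ, ⋂ i : ι, {y | l.length ≠ ar i → y l i = d i} := by
      ext y
      simp only [mem_iInter]
      exact Iff.rfl
    change MeasurableSet {y : List ℕ → ∀ i, D i | ∀ l i, l.length ≠ ar i → y l i = d i}
    rw [h1]
    refine MeasurableSet.iInter fun l => MeasurableSet.iInter fun i => ?_
    by_cases h : l.length = ar i
    · have h2 : {y : List ℕ → ∀ i, D i | l.length ≠ ar i → y l i = d i} = univ := by
        ext y
        exact ⟨fun _ => trivial, fun _ h3 => absurd h h3⟩
      rw [h2]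
      exact MeasurableSet.univ
    · have h2 : {y : List ℕ → ∀ i, D i | l.length ≠ ar i → y l i = d i} =
          (fun y : List ℕ → ∀ i, D i => y l i) ⁻¹' {d i} := by
        ext y
        exact ⟨fun h3 => h3 h, fun h3 _ => h3⟩
      rw [h2]
      have h3 : Measurable (fun y : List ℕ → ∀ i, D i => y l i) :=
        (measurable_pi_apply i).comp (measurable_pi_apply l)
      exact h3 (measurableSet_singleton (d i))
  have hencX : ∀ x ∈ X, enc d x ∈ X' := fun x hx =>
    ⟨by rw [dec_enc]; exact hx, fun l i h => enc_ne d x l i h⟩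
  refine ⟨∀ i, D i, inferInstance, inferInstance, X', hX', ?_, ⟨?_, ?_⟩, ⟨?_, ?_⟩⟩
  · rintro x ⟨hx1, hx2⟩ x' hiso
    refine ⟨hinv _ hx1 _ (iso_dec hiso), fun l i hl => ?_⟩
    obtain ⟨g, hg⟩ := hiso
    have h1 : l = (l.map g.symm).map g := by
      rw [List.map_map]
      simp
    rw [h1, hg]
    exact hx2 _ i (by rw [List.length_map]; exact hl)
  · rintro ⟨S, hS, h⟩
    refine ⟨dec ar '' S, hS.image _, fun x hx => ?_⟩
    obtain ⟨z, hz, hiso⟩ := h _ (hencX x hx)
    refine ⟨dec ar z, mem_image_of_mem _ hz, ?_⟩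
    have h1 := iso_dec (ar := ar) hiso
    rw [dec_enc] at h1
    exact h1
  · rintro ⟨S, hS, h⟩
    refine ⟨enc d '' S, hS.image _, fun x hx => ?_⟩
    obtain ⟨z, hz, hiso⟩ := h _ hx.1
    refine ⟨enc d z, mem_image_of_mem _ hz, ?_⟩
    have h1 := iso_enc d hiso
    rw [enc_dec d x hx.2] at h1
    exact h1
  · rintro ⟨F, hF, hFX, hne⟩
    refine ⟨fun u => dec ar (F u), hdm.comp hF, fun u => (hFX u).1, fun u v huv hiso => ?_⟩
    have h1 := iso_enc d hiso
    rw [enc_dec d _ (hFX u).2, enc_dec d _ (hFX v).2] at h1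
    exact hne u v huv h1
  · rintro ⟨F, hF, hFX, hne⟩
    refine ⟨fun u => enc d (F u), hem.comp hF, fun u => hencX _ (hFX u), fun u v huv hiso => ?_⟩
    have h1 := iso_dec (ar := ar) hiso
    rw [dec_enc, dec_enc] at h1
    exact hne u v huv h1

end Pool.Agent.H98.TU
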